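import Pool.Agent.Helper70.BI.HH.StHD

/-!
# Project BI, stage 7 (H), module MVU: the neighbourhood of a knotted sphere
-/

set_option autoImplicit false

open scoped Topology unitInterval Manifold ContDiff
open Set Pool.Agent.Helper65.Barb Pool.Agent.Helper18.BI
open Pool.Agent.Helper34.S5 (zc Gc nm Off)

namespace Pool.Agent.Helper70.HH

namespace MVU

/-- the data of the tube -/
private structure TubD (F : R4 → R4) (η : ℝ) (g : R4 → R4) : Prop where
  pos : 0 < η
  le : η ≤ 1 / 5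
  cF : ContinuousOn F {p | ‖zc p‖ < η}
  cg : ContinuousOn g (F '' {p | ‖zc p‖ < η})
  gF : ∀ p, ‖zc p‖ < η → g (F p) = p

variable {F : R4 → R4} {η : ℝ} {g : R4 → R4}

private theorem TubD.inj (h : TubD F η g) {p q : R4} (hp : ‖zc p‖ < η) (hq : ‖zc q‖ < η)
    (e : F p = F q) : p = q := by
  rw [← h.gF p hp, ← h.gF q hq, e]

private theorem TubD.mem_sph (h : TubD F η g) {p : R4} (hp : ‖zc p‖ < η)
    (hK : F p ∈ F '' sph 1) : zc p = 0 := by
  obtain ⟨q, hq, e⟩ := hK
  have h0 : zc q = 0 := Helper34.S5.zc_eq_zero.2 hq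
  have h1 : q = p := h.inj (by rw [h0, norm_zero]; exact h.pos) hp e
  rw [← h1]
  exact h0

private theorem TubD.zcG (h : TubD F η g) {c : ℂ} (hc : ‖c‖ < η) {m : R3} (hm : m ≠ 0) :
    zc (Gc c m) = c := by
  refine Helper34.S5.zc_Gc ?_ hm
  have h1 := Complex.abs_im_le_norm c
  have h2 := (abs_le.1 h1).1
  linarith [h.le]

private theorem TubD.ne (h : TubD F η g) {p : R4} (hp : ‖zc p‖ < η) : p.2 - (1, 0) ≠ 0 := by
  intro h0
  have h1 : (zc p).im = -(1 / 5) := by
    show nm (p.2 - (1, 0)) - 1 / 5 = _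
    rw [h0, nm, Helper34.S5.nsq_eq_zero.2 rfl, Real.sqrt_zero]
    ring
  have h2 := Complex.abs_im_le_norm (zc p)
  rw [h1, abs_neg, abs_of_pos (by norm_num)] at h2
  linarith [h.le]

private theorem nexp {ℓ : ℂ} (hη : 0 < η) : ‖Complex.exp ℓ‖ < η ↔ ℓ.re < Real.log η := by
  rw [Complex.norm_exp, ← Real.lt_log_iff_exp_lt hη]

/-- the half plane times the punctured space -/
private abbrev W (κ : ℝ) : Type := {z : ℂ × R3 // z.1.re < κ ∧ z.2 ≠ 0}

private noncomputable def q (h : TubD F η g) (z : W (Real.log η)) : Off (F '' sph 1) :=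
  ⟨F (Gc (Complex.exp z.1.1) z.1.2), by
    intro hK
    have hc := (nexp h.pos).2 z.2.1
    have h1 := h.zcG hc z.2.2
    have h2 := h.mem_sph (by rw [h1]; exact hc) hK
    rw [h1] at h2
    exact Complex.exp_ne_zero _ h2⟩

private theorem cont_q (h : TubD F η g) : Continuous (q h) := by
  refine Continuous.subtype_mk ?_ _
  have c1 : Continuous fun z : W (Real.log η) => ((Complex.exp z.1.1, z.1.2) : ℂ × R3) := by
    fun_prop
  have c2 : Continuous fun z : W (Real.log η) => Gc (Complex.exp z.1.1) z.1.2 :=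
    Helper34.S5.continuousOn_Gc.comp_continuous c1 fun z => ⟨mem_univ _, z.2.2⟩
  refine h.cF.comp_continuous c2 fun z => ?_
  have hc := (nexp h.pos).2 z.2.1
  show ‖zc (Gc (Complex.exp z.1.1) z.1.2)‖ < η
  rw [h.zcG hc z.2.2]
  exact hc

private theorem EE_ne {κ : ℝ} (z : EE κ) : z.1.2 ≠ 0 := by
  intro h
  have h1 := z.2.2
  rw [h, Helper34.S5.nsq_eq_zero.2 rfl] at h1
  norm_num at h1

private theorem nm_EE {κ : ℝ} (z : EE κ) : nm z.1.2 = 1 := by
  rw [nm, z.2.2, Real.sqrt_one]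

/-- the covering map -/
private noncomputable def Q (h : TubD F η g) : C(EE (Real.log η), Off (F '' sph 1)) :=
  ⟨fun z => q h ⟨z.1, z.2.1, EE_ne z⟩, (cont_q h).comp (Continuous.subtype_mk
    continuous_subtype_val _)⟩

private theorem Q_apply (h : TubD F η g) (z : EE (Real.log η)) :
    (Q h z : R4) = F (Gc (Complex.exp z.1.1) z.1.2) := rfl

private noncomputable def l0 (η : ℝ) : ℂ := ((Real.log η - 1 : ℝ) : ℂ)

private theorem l0_re : (l0 η).re < Real.log η := by
  unfold l0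
  rw [Complex.ofReal_re]
  linarith

private noncomputable def D (h : TubD F η g) : C(I × EE (Real.log η), Off (F '' sph 1)) :=
  ⟨fun w => q h ⟨((1 - (w.1 : ℝ)) • w.2.1.1 + (w.1 : ℝ) • l0 η, w.2.1.2), by
      show ((1 - (w.1 : ℝ)) • w.2.1.1 + (w.1 : ℝ) • l0 η).re < Real.log η
      rw [Complex.add_re, Complex.real_smul, Complex.real_smul, Complex.re_ofReal_mul,
        Complex.re_ofReal_mul]
      have h1 := w.2.2.1
      have h2 := l0_re (η := η)
      have a0 := w.1.2.1
      have a1 := w.1.2.2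
      rcases eq_or_lt_of_le a0 with e | e
      · rw [← e]
        simpa using h1
      · have b1 : (w.1 : ℝ) * (l0 η).re < (w.1 : ℝ) * Real.log η := mul_lt_mul_of_pos_left h2 e
        have b2 : (1 - (w.1 : ℝ)) * w.2.1.1.re ≤ (1 - (w.1 : ℝ)) * Real.log η :=
          mul_le_mul_of_nonneg_left h1.le (by linarith)
        linarith, EE_ne w.2⟩, by
    refine (cont_q h).comp (Continuous.subtype_mk ?_ _)
    have u1 : Continuous fun w : I × EE (Real.log η) => (w.1 : ℝ) :=
      continuous_subtype_val.comp continuous_fst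
    have u2 : Continuous fun w : I × EE (Real.log η) => w.2.1.1 :=
      continuous_fst.comp (continuous_subtype_val.comp continuous_snd)
    have u3 : Continuous fun w : I × EE (Real.log η) => w.2.1.2 :=
      continuous_snd.comp (continuous_subtype_val.comp continuous_snd)
    exact (((continuous_const.sub u1).smul u2).add (u1.smul continuous_const)).prodMk u3⟩

private theorem D_apply (h : TubD F η g) (w : I × EE (Real.log η)) :
    (D h w : R4) = F (Gc (Complex.exp ((1 - (w.1 : ℝ)) • w.2.1.1 + (w.1 : ℝ) • l0 η)) w.2.1.2) :=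
  rfl

private theorem D_zero (h : TubD F η g) (z : EE (Real.log η)) : D h (0, z) = Q h z := by
  apply Subtype.ext
  rw [D_apply, Q_apply]
  show F (Gc (Complex.exp ((1 - ((0 : I) : ℝ)) • z.1.1 + ((0 : I) : ℝ) • l0 η)) z.1.2) = _
  rw [Icc.coe_zero, sub_zero, one_smul, zero_smul, add_zero]

private theorem D_one (h : TubD F η g) (z : EE (Real.log η)) :
    (D h (1, z) : R4) = F (Gc (Complex.exp (l0 η)) z.1.2) := by
  rw [D_apply]
  show F (Gc (Complex.exp ((1 - ((1 : I) : ℝ)) • z.1.1 + ((1 : I) : ℝ) • l0 η)) z.1.2) = _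
  rw [Icc.coe_one, sub_self, one_smul, zero_smul, zero_add]

/-- translation by a multiple of `2 π i` -/
private noncomputable def sh (κ : ℝ) (n : ℤ) (z : EE κ) : EE κ :=
  ⟨(z.1.1 + (n : ℂ) * (2 * Real.pi * Complex.I), z.1.2), by
    show (z.1.1 + (n : ℂ) * (2 * Real.pi * Complex.I)).re < κ
    have : ((n : ℂ) * (2 * Real.pi * Complex.I)).re = 0 := by
      simp
    rw [Complex.add_re, this, add_zero]
    exact z.2.1, z.2.2⟩

private theorem cont_sh (κ : ℝ) (n : ℤ) : Continuous (sh κ n) := by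
  refine Continuous.subtype_mk ?_ _
  fun_prop

private theorem sh_add (κ : ℝ) (n k : ℤ) (z : EE κ) : sh κ n (sh κ k z) = sh κ (k + n) z := by
  apply Subtype.ext
  refine Prod.ext ?_ rfl
  show z.1.1 + (k : ℂ) * (2 * Real.pi * Complex.I) + (n : ℂ) * (2 * Real.pi * Complex.I) =
    z.1.1 + ((k + n : ℤ) : ℂ) * (2 * Real.pi * Complex.I)
  push_cast
  ring

private theorem sh_zero (κ : ℝ) (z : EE κ) : sh κ 0 z = z := by
  apply Subtype.ext
  refine Prod.ext ?_ rfl
  show z.1.1 + ((0 : ℤ) : ℂ) * (2 * Real.pi * Complex.I) = z.1.1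
  simp

private noncomputable def tau (κ : ℝ) : EE κ ≃ₜ EE κ where
  toFun := sh κ 1
  invFun := sh κ (-1)
  left_inv z := by
    rw [sh_add]
    exact sh_zero κ z
  right_inv z := by
    rw [sh_add]
    exact sh_zero κ z
  continuous_toFun := cont_sh κ 1
  continuous_invFun := cont_sh κ (-1)

private theorem exp_sh (κ : ℝ) (n : ℤ) (z : EE κ) :
    Complex.exp (sh κ n z).1.1 = Complex.exp z.1.1 := by
  show Complex.exp (z.1.1 + (n : ℂ) * (2 * Real.pi * Complex.I)) = _
  rw [Complex.exp_add, Complex.exp_int_mul_two_pi_mul_I, mul_one]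

private theorem Q_sh (h : TubD F η g) (n : ℤ) (z : EE (Real.log η)) :
    Q h (sh _ n z) = Q h z := by
  apply Subtype.ext
  rw [Q_apply, Q_apply, exp_sh]
  rfl

private noncomputable def deg (κ : ℝ) (z : EE κ) : ℤ := ⌊z.1.1.im / (2 * Real.pi)⌋

private theorem deg_tau (κ : ℝ) (z : EE κ) : deg κ (tau κ z) = deg κ z + 1 := by
  show ⌊(z.1.1 + ((1 : ℤ) : ℂ) * (2 * Real.pi * Complex.I)).im / (2 * Real.pi)⌋ = _
  have e : (z.1.1 + ((1 : ℤ) : ℂ) * (2 * Real.pi * Complex.I)).im / (2 * Real.pi) =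
      z.1.1.im / (2 * Real.pi) + 1 := by
    have h1 : (((1 : ℤ) : ℂ) * (2 * Real.pi * Complex.I)).im = 2 * Real.pi := by
      simp
    rw [Complex.add_im, h1]
    have := Real.pi_pos
    field_simp
  rw [e, Int.floor_add_one]
  rfl

/-! ### lifts -/

private theorem Fg (h : TubD F η g) {x : R4} (hx : x ∈ F '' {p | ‖zc p‖ < η}) :
    F (g x) = x ∧ ‖zc (g x)‖ < η := by
  obtain ⟨p, hp, rfl⟩ := hx
  rw [h.gF p hp]
  exact ⟨rfl, hp⟩

private theorem exists_lift (h : TubD F η g) {Y : Type} [TopologicalSpace Y]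
    (hY : ∀ c : C(Y, ℂ), (∀ y, c y ≠ 0) → ∃ ℓ : C(Y, ℂ), ∀ y, Complex.exp (ℓ y) = c y)
    (e : C(Y, Off (F '' sph 1))) (he : ∀ y, (e y : R4) ∈ F '' {p | ‖zc p‖ < η}) :
    ∃ f : C(Y, EE (Real.log η)), ∀ y, Q h (f y) = e y := by
  have ce : Continuous fun y => (e y : R4) := continuous_subtype_val.comp e.continuous
  have cp : Continuous fun y => g (e y) := h.cg.comp_continuous ce he
  let c : C(Y, ℂ) := ⟨fun y => zc (g (e y)), Helper34.S5.continuous_zc.comp cp⟩
  have hc : ∀ y, c y ≠ 0 := by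
    intro y hy
    have h1 := Fg h (he y)
    have h2 : g (e y) ∈ sph 1 := Helper34.S5.zc_eq_zero.1 hy
    exact (e y).2 ⟨g (e y), h2, h1.1⟩
  obtain ⟨ℓ, hℓ⟩ := hY c hc
  let w : Y → R3 := fun y => (g (e y)).2 - (1, 0)
  have cw : Continuous w := (continuous_snd.comp cp).sub continuous_const
  have hw : ∀ y, w y ≠ 0 := fun y => h.ne (Fg h (he y)).2
  have cn : Continuous fun y => (nm (w y))⁻¹ • w y :=
    ((Helper34.S5.continuous_nm.comp cw).inv₀ fun y => (Helper34.S5.nm_pos (hw y)).ne').smul cw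
  refine ⟨⟨fun y => ⟨(ℓ y, (nm (w y))⁻¹ • w y), ?_, ?_⟩,
    Continuous.subtype_mk (ℓ.continuous.prodMk cn) _⟩, ?_⟩
  · show (ℓ y).re < Real.log η
    rw [← nexp h.pos, hℓ y]
    exact (Fg h (he y)).2
  · show nsq ((nm (w y))⁻¹ • w y) = 1
    rw [Helper34.S5.nsq_smul, nm, inv_pow, Real.sq_sqrt (Helper34.S5.nsq_nonneg _)]
    exact inv_mul_cancel₀ fun h => hw y (Helper34.S5.nsq_eq_zero.1 h)
  · intro y
    apply Subtype.ext
    show F (Gc (Complex.exp (ℓ y)) ((nm (w y))⁻¹ • w y)) = e y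
    rw [hℓ y, Helper34.S5.Gc_smul _ (inv_pos.2 (Helper34.S5.nm_pos (hw y))) (hw y)]
    show F (Gc (zc (g (e y))) ((g (e y)).2 - (1, 0))) = e y
    rw [Helper34.S5.Gc_zc (hw y)]
    exact (Fg h (he y)).1

private theorem lift_pt (h : TubD F η g) {z z' : EE (Real.log η)} (e : Q h z = Q h z') :
    ∃ n : ℤ, z' = sh _ n z := by
  have e1 : F (Gc (Complex.exp z.1.1) z.1.2) = F (Gc (Complex.exp z'.1.1) z'.1.2) :=
    congrArg Subtype.val e
  have hc := (nexp h.pos).2 z.2.1
  have hc' := (nexp h.pos).2 z'.2.1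
  have k := h.zcG hc (EE_ne z)
  have k' := h.zcG hc' (EE_ne z')
  have e2 : Gc (Complex.exp z.1.1) z.1.2 = Gc (Complex.exp z'.1.1) z'.1.2 :=
    h.inj (by rw [k]; exact hc) (by rw [k']; exact hc') e1
  have e3 : Complex.exp z.1.1 = Complex.exp z'.1.1 := by
    rw [← k, ← k', e2]
  have e4 : z.1.2 = z'.1.2 := by
    have h1 := Helper34.S5.Gc_snd (Complex.exp z.1.1) z.1.2
    have h2 := Helper34.S5.Gc_snd (Complex.exp z'.1.1) z'.1.2
    rw [← e2, ← e3, h1, nm_EE, nm_EE, inv_one, mul_one] at h2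
    have h3 : (0 : ℝ) < 1 / 5 + (Complex.exp z.1.1).im := by
      have h4 := Complex.abs_im_le_norm (Complex.exp z.1.1)
      have h5 := (abs_le.1 h4).1
      linarith [h.le]
    exact smul_right_injective R3 h3.ne' h2
  obtain ⟨n, hn⟩ := Complex.exp_eq_exp_iff_exists_int.1 e3.symm
  refine ⟨n, Subtype.ext (Prod.ext ?_ e4.symm)⟩
  exact hn

private theorem lift_unique (h : TubD F η g) {f f' : C(I, EE (Real.log η))}
    (e : ∀ t, Q h (f t) = Q h (f' t)) : ∃ n : ℤ, ∀ t, f' t = sh _ n (f t) := by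
  choose n hn using fun t => lift_pt h (e t)
  have c1 : Continuous fun t => ((n t : ℤ) : ℝ) := by
    have e1 : (fun t => ((n t : ℤ) : ℝ)) =
        fun t => ((f' t).1.1.im - (f t).1.1.im) / (2 * Real.pi) := by
      funext t
      have h1 : (f' t).1.1 = (f t).1.1 + (n t : ℂ) * (2 * Real.pi * Complex.I) :=
        congrArg (fun z : EE (Real.log η) => z.1.1) (hn t)
      have h2 : ((n t : ℂ) * (2 * Real.pi * Complex.I)).im = n t * (2 * Real.pi) := by
        simp
      rw [h1, Complex.add_im, h2]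
      have := Real.pi_pos
      field_simp
      ring
    rw [e1]
    have u1 : Continuous fun t => (f t).1.1.im := Complex.continuous_im.comp
      (continuous_fst.comp (continuous_subtype_val.comp f.continuous))
    have u2 : Continuous fun t => (f' t).1.1.im := Complex.continuous_im.comp
      (continuous_fst.comp (continuous_subtype_val.comp f'.continuous))
    exact (u2.sub u1).div_const _
  have c2 : Continuous n := Int.isClosedEmbedding_coe_real.isEmbedding.continuous_iff.2 c1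
  refine ⟨n 0, fun t => ?_⟩
  have h3 : n t = n 0 := PreconnectedSpace.constant inferInstance c2
  rw [← h3]
  exact hn t

private theorem U_sh {κ : ℝ} {V : Type} {U : C(I, EE κ) → V}
    (hU : ∀ e e' : C(I, EE κ), (∀ t, e' t = tau κ (e t)) → U e' = U e) (f : C(I, EE κ)) (n : ℤ) :
    U ⟨fun t => sh κ n (f t), (cont_sh κ n).comp f.continuous⟩ = U f := by
  have step : ∀ k : ℤ, U ⟨fun t => sh κ (k + 1) (f t), (cont_sh κ (k + 1)).comp f.continuous⟩ =
      U ⟨fun t => sh κ k (f t), (cont_sh κ k).comp f.continuous⟩ := by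
    intro k
    refine hU _ _ fun t => ?_
    show sh κ (k + 1) (f t) = sh κ 1 (sh κ k (f t))
    rw [sh_add]
  induction n using Int.induction_on with
  | zero =>
    congr 1
    ext1 t
    exact sh_zero κ (f t)
  | succ k ih => exact (step k).trans ih
  | pred k ih =>
    have h := step (-(k : ℤ) - 1)
    rw [← ih]
    have e : -(k : ℤ) - 1 + 1 = -(k : ℤ) := by ring
    rw [e] at h
    exact h.symm

end MVU

open MVU in
theorem m_MVU (hTDA : StTDA) (hTDB : StTDB) (hSCA : StSCA) (hSCB : StSCB) (hMVA : StMVA) :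
    StMVU := by
  intro F hF
  obtain ⟨η, hη, g, hNo, hFc, hgc, hgF⟩ := hTDA F hF
  have h : TubD F η g := ⟨hη.1, hη.2, hFc, hgc, hgF⟩
  let ρ : R4 → R4 := fun x => F (Gc (Complex.exp (l0 η)) ((g x).2 - (1, 0)))
  have hl0 : ‖Complex.exp (l0 η)‖ < η := (nexp h.pos).2 l0_re
  refine ⟨F '' {p | ‖zc p‖ < η}, ρ, hNo, ?_, ?_, ?_, ?_⟩
  · rintro _ ⟨p, hp, rfl⟩
    refine ⟨p, ?_, rfl⟩
    show ‖zc p‖ < η
    rw [Helper34.S5.zc_eq_zero.2 hp, norm_zero]
    exact h.pos
  · have c1 : ContinuousOn (fun x => ((Complex.exp (l0 η), (g x).2 - (1, 0)) : ℂ × R3))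
        (F '' {p | ‖zc p‖ < η}) :=
      continuousOn_const.prodMk ((continuous_snd.comp_continuousOn hgc).sub continuousOn_const)
    have c2 : ContinuousOn (fun x => Gc (Complex.exp (l0 η)) ((g x).2 - (1, 0)))
        (F '' {p | ‖zc p‖ < η}) :=
      Helper34.S5.continuousOn_Gc.comp c1 fun x hx => ⟨mem_univ _, h.ne (Fg h hx).2⟩
    refine hFc.comp c2 fun x hx => ?_
    show ‖zc (Gc (Complex.exp (l0 η)) ((g x).2 - (1, 0)))‖ < η
    rw [h.zcG hl0 (h.ne (Fg h hx).2)]
    exact hl0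
  · intro x hx hK
    have h1 := h.zcG hl0 (h.ne (Fg h hx).2)
    have h2 := h.mem_sph (by rw [h1]; exact hl0) hK
    rw [h1] at h2
    exact Complex.exp_ne_zero _ h2
  · intro V _ a v hcoc
    have := hSCB (Real.log η)
    obtain ⟨U, hU1, hU2⟩ := hMVA (Off (F '' sph 1)) (EE (Real.log η)) V a v hcoc
      (hSCA (EE (Real.log η))) (Q h) (D h) (tau _) (deg _) (D_zero h)
      (fun z => Q_sh h 1 z) (fun z => Subtype.ext (by rw [D_one, D_one]; rfl)) (deg_tau _)
    classical
    let u : C(I, Off (F '' sph 1)) → V := fun e =>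
      if hx : ∃ f : C(I, EE (Real.log η)), ∀ t, Q h (f t) = e t then U (Classical.choose hx) else 0
    have hu : ∀ (e : C(I, Off (F '' sph 1))) (f : C(I, EE (Real.log η))),
        (∀ t, Q h (f t) = e t) → u e = U f := by
      intro e f hf
      have hx : ∃ f : C(I, EE (Real.log η)), ∀ t, Q h (f t) = e t := ⟨f, hf⟩
      show (if hx : ∃ f : C(I, EE (Real.log η)), ∀ t, Q h (f t) = e t then
        U (Classical.choose hx) else 0) = U f
      rw [dif_pos hx]
      have hs := Classical.choose_spec hx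
      obtain ⟨n, hn⟩ := lift_unique h (f := f) (f' := Classical.choose hx)
        fun t => (hf t).trans (hs t).symm
      rw [← U_sh hU1 f n]
      congr 1
      ext1 t
      exact hn t
    refine ⟨u, ?_⟩
    intro S S' hS hS'
    obtain ⟨T, hT⟩ := exists_lift h hTDB.2 S hS
    have key := hU2 T S S' (fun z => (hT z).symm) (fun z => ?_)
    · rw [key, hu (S.comp botm) (T.comp botm) fun t => hT _,
        hu (S.comp rigm) (T.comp rigm) fun t => hT _,
        hu (S.comp lefm) (T.comp lefm) fun t => hT _,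
        hu (S.comp topm) (T.comp topm) fun t => hT _]
    · apply Subtype.ext
      rw [hS' z, D_one, ← hT z, Q_apply]
      show F (Gc (Complex.exp (l0 η)) ((g (F (Gc (Complex.exp (T z).1.1) (T z).1.2))).2 - (1, 0))) = _
      have hc := (nexp h.pos).2 (T z).2.1
      rw [h.gF _ (by rw [h.zcG hc (EE_ne _)]; exact hc), Helper34.S5.Gc_snd, nm_EE, inv_one,
        mul_one, Helper34.S5.Gc_smul _ _ (EE_ne _)]
      have h4 := Complex.abs_im_le_norm (Complex.exp (T z).1.1)
      have h5 := (abs_le.1 h4).1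
      linarith [h.le]

end Pool.Agent.Helper70.HH
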