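import Pool.Agent.Helper70.BI.HH.StHA
import Pool.Agent.Helper70.BI.T.M_MUL

/-!
# Project BI, stage 7 (H), module SC: classes of free spheres modulo drift
-/

set_option autoImplicit false

open scoped Topology unitInterval
open Set Pool.Agent.Helper65.Barb Pool.Agent.Helper18.BI
open Pool.Agent.Helper18.FinR (sqr)
open Pool.Agent.Helper18.BI.R (S2)
open Pool.Agent.Helper70.T

namespace Pool.Agent.Helper70.HH

namespace SC

variable {X : Type} [TopologicalSpace X]

/-- distance to the boundary -/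
private noncomputable def dd (t : Fin 2 → I) : ℝ :=
  min (min (t 0 : ℝ) (1 - (t 0 : ℝ))) (min (t 1 : ℝ) (1 - (t 1 : ℝ)))

private theorem cont_dd : Continuous dd := by
  unfold dd
  fun_prop

private theorem dd_nonneg (t : Fin 2 → I) : 0 ≤ dd t :=
  le_min (le_min (t 0).2.1 (by linarith [(t 0).2.2])) (le_min (t 1).2.1 (by linarith [(t 1).2.2]))

private theorem dd_bd {t : Fin 2 → I} (h : t ∈ Cube.boundary (Fin 2)) : dd t = 0 := by
  refine le_antisymm ?_ (dd_nonneg t)
  unfold dd
  rcases mem_bd h with h | h | h | h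
  · rw [h]
    exact (min_le_left _ _).trans ((min_le_left _ _).trans (by norm_num))
  · rw [h]
    exact (min_le_left _ _).trans ((min_le_right _ _).trans (by norm_num))
  · rw [h]
    exact (min_le_right _ _).trans ((min_le_left _ _).trans (by norm_num))
  · rw [h]
    exact (min_le_right _ _).trans ((min_le_right _ _).trans (by norm_num))

private noncomputable def cc (u : I) : ℝ := (1 - (u : ℝ)) / 4

private theorem cc_pos (u : I) : 0 < 1 - 2 * cc u := by
  unfold cc
  linarith [u.2.1]

/-- the inner coordinates -/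
private noncomputable def inn (z : I × (Fin 2 → I)) (i : Fin 2) : I :=
  projIcc 0 1 zero_le_one (((z.2 i : ℝ) - cc z.1) / (1 - 2 * cc z.1))

private theorem cont_inn : Continuous inn := by
  refine continuous_pi fun i => continuous_projIcc.comp ?_
  have h1 : Continuous fun z : I × (Fin 2 → I) => (z.2 i : ℝ) := by fun_prop
  have h2 : Continuous fun z : I × (Fin 2 → I) => cc z.1 := by
    unfold cc
    fun_prop
  exact (h1.sub h2).div (continuous_const.sub (continuous_const.mul h2)) fun z => (cc_pos z.1).ne'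

private theorem inn_bd {z : I × (Fin 2 → I)} (h : dd z.2 = cc z.1) :
    inn z ∈ Cube.boundary (Fin 2) := by
  have key : ∃ i : Fin 2, (z.2 i : ℝ) = cc z.1 ∨ 1 - (z.2 i : ℝ) = cc z.1 := by
    unfold dd at h
    rcases min_choice (min (z.2 0 : ℝ) (1 - (z.2 0 : ℝ))) (min (z.2 1 : ℝ) (1 - (z.2 1 : ℝ)))
      with e | e
    · rw [e] at h
      rcases min_choice (z.2 0 : ℝ) (1 - (z.2 0 : ℝ)) with e' | e'
      · exact ⟨0, Or.inl (e'.symm.trans h)⟩
      · exact ⟨0, Or.inr (e'.symm.trans h)⟩
    · rw [e] at h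
      rcases min_choice (z.2 1 : ℝ) (1 - (z.2 1 : ℝ)) with e' | e'
      · exact ⟨1, Or.inl (e'.symm.trans h)⟩
      · exact ⟨1, Or.inr (e'.symm.trans h)⟩
  obtain ⟨i, hi⟩ := key
  refine ⟨i, ?_⟩
  rcases hi with hi | hi
  · left
    unfold inn
    rw [hi, sub_self, zero_div, projIcc_left]
    rfl
  · right
    unfold inn
    have e : (z.2 i : ℝ) - cc z.1 = 1 - 2 * cc z.1 := by linarith
    rw [e, div_self (cc_pos z.1).ne', projIcc_right]
    rfl

private theorem transport {y₀ y : X} (r : Path y₀ y) (f : GenLoop (Fin 2) X y) :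
    ∃ (g : GenLoop (Fin 2) X y₀) (F : I × (Fin 2 → I) → X), Continuous F ∧
      (∀ t, F (0, t) = g t) ∧ (∀ t, F (1, t) = f t) ∧
      ∀ u : I, ∀ t ∈ Cube.boundary (Fin 2), F (u, t) = r.extend u := by
  let F : I × (Fin 2 → I) → X := fun z =>
    if dd z.2 ≤ cc z.1 then r.extend ((z.1 : ℝ) + 4 * dd z.2) else f (inn z)
  have hF : Continuous F := by
    have h2 : Continuous fun z : I × (Fin 2 → I) => cc z.1 := by
      unfold cc
      fun_prop
    have h3 : Continuous fun z : I × (Fin 2 → I) => dd z.2 := cont_dd.comp continuous_snd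
    refine Continuous.if_le (r.continuous_extend.comp ?_) (f.1.continuous.comp cont_inn) h3 h2 ?_
    · exact (continuous_subtype_val.comp continuous_fst).add (continuous_const.mul h3)
    · intro z hz
      have e : (z.1 : ℝ) + 4 * dd z.2 = 1 := by
        rw [hz]
        unfold cc
        ring
      show r.extend ((z.1 : ℝ) + 4 * dd z.2) = f (inn z)
      rw [e, r.extend_one]
      exact (f.2 _ (inn_bd hz)).symm
  have hb : ∀ u : I, ∀ t ∈ Cube.boundary (Fin 2), F (u, t) = r.extend u := by
    intro u t ht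
    show (if dd t ≤ cc u then r.extend ((u : ℝ) + 4 * dd t) else f (inn (u, t))) = _
    rw [dd_bd ht, if_pos (by unfold cc; linarith [u.2.2]), mul_zero, add_zero]
  have h1 : ∀ t, F (1, t) = f t := by
    intro t
    have c1 : cc 1 = 0 := by
      unfold cc
      simp
    show (if dd t ≤ cc 1 then r.extend (((1 : I) : ℝ) + 4 * dd t) else f (inn (1, t))) = _
    by_cases h : dd t ≤ cc 1
    · rw [if_pos h]
      rw [c1] at h
      have h0 : dd t = 0 := le_antisymm h (dd_nonneg t)
      have hi : inn (1, t) = t := by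
        funext i
        unfold inn
        show projIcc 0 1 zero_le_one (((t i : ℝ) - cc 1) / (1 - 2 * cc 1)) = t i
        rw [c1, mul_zero, sub_zero, sub_zero, div_one]
        exact projIcc_val _ _
      have hm : t ∈ Cube.boundary (Fin 2) := by
        have := inn_bd (z := (1, t)) (by show dd t = cc 1; rw [c1, h0])
        rwa [hi] at this
      rw [h0, mul_zero, add_zero, Icc.coe_one, r.extend_one]
      exact (f.2 t hm).symm
    · rw [if_neg h]
      congr 1
      funext i
      unfold inn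
      show projIcc 0 1 zero_le_one (((t i : ℝ) - cc 1) / (1 - 2 * cc 1)) = t i
      rw [c1, mul_zero, sub_zero, sub_zero, div_one]
      exact projIcc_val _ _
  refine ⟨⟨⟨fun t => F (0, t), hF.comp (by fun_prop)⟩, ?_⟩, F, hF, fun t => rfl, h1, hb⟩
  intro t ht
  show F (0, t) = y₀
  rw [hb 0 t ht, Icc.coe_zero, r.extend_zero]

private theorem Hfree_symm {f g : (Fin 2 → I) → X} (h : Hfree f g) : Hfree g f := by
  obtain ⟨F, c, a0, a1, ab⟩ := h
  refine ⟨fun z => F (1 - z.1, z.2), ?_, ?_, ?_, ?_⟩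
  · refine c.comp (by fun_prop) ?_
    rintro z ⟨hz, -⟩
    exact ⟨⟨by linarith [hz.2], by linarith [hz.1]⟩, mem_univ _⟩
  · intro t
    show F (1 - 0, t) = g t
    rw [sub_zero, a1]
  · intro t
    show F (1 - 1, t) = f t
    rw [sub_self, a0]
  · intro u hu t ht t' ht'
    exact ab (1 - u) ⟨by linarith [hu.2], by linarith [hu.1]⟩ t ht t' ht'

private theorem Hfree_self {y : X} (f : GenLoop (Fin 2) X y) : Hfree (f : (Fin 2 → I) → X) f := by
  refine Hfree.mk' (fun z => f z.2) (f.1.continuous.comp continuous_snd) (fun _ => rfl)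
    (fun _ => rfl) ?_
  intro u t ht t' ht'
  exact (f.2 t ht).trans (f.2 t' ht').symm

private theorem Hfree_of_hcl {y : X} {f g : GenLoop (Fin 2) X y} (h : hcl f = hcl g) :
    Hfree (f : (Fin 2 → I) → X) g := by
  obtain ⟨H⟩ := Quotient.exact h
  refine Hfree.mk' (fun z => H z) H.continuous (fun t => H.map_zero_left t)
    (fun t => H.map_one_left t) ?_
  intro u t ht t' ht'
  exact ((H.eq_fst u ht).trans (f.2 t ht)).trans ((H.eq_fst u ht').trans (f.2 t' ht')).symm

private theorem mcl_eq {y₀ : X} {x x' : GenLoop (Fin 2) X y₀} {f : (Fin 2 → I) → X}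
    (h : Hfree x f) (h' : Hfree x' f) : mcl x = mcl x' := by
  unfold mcl
  congr 1
  rw [QuotientGroup.eq]
  have hm : hcl x' * (hcl x)⁻¹ ∈ drift y₀ := ⟨x', x, f, h', h, rfl⟩
  rw [mul_comm]
  exact Subgroup.subset_closure hm

/-- concatenation of homotopies -/
private theorem conc {y₀ y : X} {r : ℝ → X} {g x : GenLoop (Fin 2) X y}
    {rg rx : GenLoop (Fin 2) X y₀} {F G : I × (Fin 2 → I) → X} (hF : Continuous F)
    (hG : Continuous G) (F0 : ∀ t, F (0, t) = rg t) (G0 : ∀ t, G (0, t) = rx t)
    (F1 : ∀ t, F (1, t) = g t) (G1 : ∀ t, G (1, t) = x t)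
    (Fb : ∀ u : I, ∀ t ∈ Cube.boundary (Fin 2), F (u, t) = r u)
    (Gb : ∀ u : I, ∀ t ∈ Cube.boundary (Fin 2), G (u, t) = r u) :
    Hfree (GenLoop.transAt 0 rg rx : GenLoop (Fin 2) X y₀)
      (GenLoop.transAt 0 g x : GenLoop (Fin 2) X y) := by
  let a : I × (Fin 2 → I) → I × (Fin 2 → I) := fun z =>
    (z.1, Function.update z.2 0 (projIcc 0 1 zero_le_one (2 * (z.2 0 : ℝ))))
  let b : I × (Fin 2 → I) → I × (Fin 2 → I) := fun z =>
    (z.1, Function.update z.2 0 (projIcc 0 1 zero_le_one (2 * (z.2 0 : ℝ) - 1)))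
  have ca : Continuous a := by
    refine continuous_fst.prodMk ?_
    refine Continuous.update continuous_snd 0 (continuous_projIcc.comp ?_)
    fun_prop
  have cb : Continuous b := by
    refine continuous_fst.prodMk ?_
    refine Continuous.update continuous_snd 0 (continuous_projIcc.comp ?_)
    fun_prop
  refine Hfree.mk' (fun z => if (z.2 0 : ℝ) ≤ 1 / 2 then F (a z) else G (b z)) ?_ ?_ ?_ ?_
  · refine Continuous.if_le (hF.comp ca) (hG.comp cb) (by fun_prop) continuous_const ?_
    intro z hz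
    have e1 : (a z).2 ∈ Cube.boundary (Fin 2) := by
      refine ⟨0, Or.inr ?_⟩
      show Function.update z.2 0 (projIcc 0 1 zero_le_one (2 * (z.2 0 : ℝ))) 0 = 1
      rw [Function.update_self, hz]
      norm_num
    have e2 : (b z).2 ∈ Cube.boundary (Fin 2) := by
      refine ⟨0, Or.inl ?_⟩
      show Function.update z.2 0 (projIcc 0 1 zero_le_one (2 * (z.2 0 : ℝ) - 1)) 0 = 0
      rw [Function.update_self, hz]
      norm_num
    show F (z.1, (a z).2) = G (z.1, (b z).2)
    rw [Fb _ _ e1, Gb _ _ e2]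
  · intro t
    show (if (t 0 : ℝ) ≤ 1 / 2 then
        F (0, Function.update t 0 (projIcc 0 1 zero_le_one (2 * (t 0 : ℝ))))
      else G (0, Function.update t 0 (projIcc 0 1 zero_le_one (2 * (t 0 : ℝ) - 1)))) =
      if (t 0 : ℝ) ≤ 1 / 2 then
        rg (Function.update t 0 (projIcc 0 1 zero_le_one (2 * (t 0 : ℝ))))
      else rx (Function.update t 0 (projIcc 0 1 zero_le_one (2 * (t 0 : ℝ) - 1)))
    rw [F0, G0]
  · intro t
    show (if (t 0 : ℝ) ≤ 1 / 2 then
        F (1, Function.update t 0 (projIcc 0 1 zero_le_one (2 * (t 0 : ℝ))))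
      else G (1, Function.update t 0 (projIcc 0 1 zero_le_one (2 * (t 0 : ℝ) - 1)))) =
      if (t 0 : ℝ) ≤ 1 / 2 then
        g (Function.update t 0 (projIcc 0 1 zero_le_one (2 * (t 0 : ℝ))))
      else x (Function.update t 0 (projIcc 0 1 zero_le_one (2 * (t 0 : ℝ) - 1)))
    rw [F1, G1]
  · have hbd : ∀ u : I, ∀ t ∈ Cube.boundary (Fin 2),
        (if (t 0 : ℝ) ≤ 1 / 2 then F (a (u, t)) else G (b (u, t))) = r u := by
      intro u t ht
      split_ifs with h
      · refine Fb u _ ?_
        rcases mem_bd ht with h' | h' | h' | h'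
        · refine ⟨0, Or.inl ?_⟩
          show Function.update t 0 (projIcc 0 1 zero_le_one (2 * (t 0 : ℝ))) 0 = 0
          rw [Function.update_self, h']
          norm_num
        · rw [h'] at h
          norm_num at h
        · refine ⟨1, Or.inl ?_⟩
          show Function.update t 0 (projIcc 0 1 zero_le_one (2 * (t 0 : ℝ))) 1 = 0
          rw [Function.update_of_ne (by decide), h']
        · refine ⟨1, Or.inr ?_⟩
          show Function.update t 0 (projIcc 0 1 zero_le_one (2 * (t 0 : ℝ))) 1 = 1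
          rw [Function.update_of_ne (by decide), h']
      · refine Gb u _ ?_
        rcases mem_bd ht with h' | h' | h' | h'
        · rw [h'] at h
          norm_num at h
        · refine ⟨0, Or.inr ?_⟩
          show Function.update t 0 (projIcc 0 1 zero_le_one (2 * (t 0 : ℝ) - 1)) 0 = 1
          rw [Function.update_self, h']
          norm_num
        · refine ⟨1, Or.inl ?_⟩
          show Function.update t 0 (projIcc 0 1 zero_le_one (2 * (t 0 : ℝ) - 1)) 1 = 0
          rw [Function.update_of_ne (by decide), h']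
        · refine ⟨1, Or.inr ?_⟩
          show Function.update t 0 (projIcc 0 1 zero_le_one (2 * (t 0 : ℝ) - 1)) 1 = 1
          rw [Function.update_of_ne (by decide), h']
    intro u t ht t' ht'
    exact (hbd u t ht).trans (hbd u t' ht').symm

open Classical in
/-- the class -/
private noncomputable def sqc (X : Type) [TopologicalSpace X] (y₀ : X) (f : (Fin 2 → I) → X) :
    MM X y₀ :=
  if h : ∃ x : GenLoop (Fin 2) X y₀, Hfree x f then mcl (Classical.choose h) else 0

private theorem sqc_eq {y₀ : X} {f : (Fin 2 → I) → X} {x : GenLoop (Fin 2) X y₀}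
    (h : Hfree x f) : sqc X y₀ f = mcl x := by
  unfold sqc
  rw [dif_pos ⟨x, h⟩]
  exact mcl_eq (Classical.choose_spec (⟨x, h⟩ : ∃ x : GenLoop (Fin 2) X y₀, Hfree x f)) h

end SC

open SC in
theorem m_SC : StSC := by
  intro X _ _ y₀
  refine ⟨sqc X y₀, fun f => sqc_eq (Hfree_self f), ?_, ?_⟩
  · intro f g h
    by_cases hx : ∃ x : GenLoop (Fin 2) X y₀, Hfree x f
    · obtain ⟨x, hx⟩ := hx
      rw [sqc_eq hx, sqc_eq (Hfree.trans hx h)]
    · have hx' : ¬ ∃ x : GenLoop (Fin 2) X y₀, Hfree x g := by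
        rintro ⟨x, hx'⟩
        exact hx ⟨x, Hfree.trans hx' (Hfree_symm h)⟩
      unfold sqc
      rw [dif_neg hx, dif_neg hx']
  · intro y f g x h
    obtain ⟨r⟩ := PathConnectedSpace.joined y₀ y
    obtain ⟨rg, F, F1, F2, F3, F4⟩ := transport r g
    obtain ⟨rx, G, G1, G2, G3, G4⟩ := transport r x
    have hg : Hfree rg g := Hfree.mk' F F1 F2 F3 fun u t ht t' ht' => by rw [F4 u t ht, F4 u t' ht']
    have hx : Hfree rx x := Hfree.mk' G G1 G2 G3 fun u t ht t' ht' => by rw [G4 u t ht, G4 u t' ht']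
    have h1 := conc F1 G1 F2 G2 F3 G3 F4 G4
    rw [← hcl_trans] at h
    have h2 := Hfree.trans h1 (Hfree_symm (Hfree_of_hcl h))
    rw [sqc_eq h2, sqc_eq hg, sqc_eq hx]
    unfold mcl
    rw [hcl_trans]
    rfl

end Pool.Agent.Helper70.HH
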